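import Pool.Agent.Q22.EC.Stm

/-! Amalgamated product of many groups over one subgroup: two conjugation lemmas
(job EC-AMALGI). -/

set_option autoImplicit false

universe u

namespace Pool.Agent.Q110.EC

open Monoid Pool.Agent.Q22.EC

variable {Q H : Type u} [Group H] {K : Q → Type u} [∀ i, Group (K i)] {φ : ∀ i, H →* K i}

/-- reduced lists -/
def Red (φ : ∀ i, H →* K i) (l : List (Σ i, K i)) : Prop :=
  (∀ x ∈ l, x.2 ∉ (φ x.1).range) ∧ l.IsChain fun a b => a.1 ≠ b.1

/-- the product of a list -/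
def pr (φ : ∀ i, H →* K i) (l : List (Σ i, K i)) : PushoutI φ :=
  (l.map fun x => PushoutI.of x.1 x.2).prod

@[simp] theorem pr_nil : pr φ [] = 1 := rfl

@[simp] theorem pr_cons (x : Σ i, K i) (l : List (Σ i, K i)) :
    pr φ (x :: l) = PushoutI.of x.1 x.2 * pr φ l := by
  unfold pr
  rw [List.map_cons, List.prod_cons]

theorem pr_append (l l' : List (Σ i, K i)) : pr φ (l ++ l') = pr φ l * pr φ l' := by
  unfold pr
  rw [List.map_append, List.prod_append]

theorem eq_nil (hφ : ∀ i, Function.Injective (φ i)) {l : List (Σ i, K i)} (hl : Red φ l)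
    (h : pr φ l ∈ (PushoutI.base φ).range) : l = [] := by
  let w : CoprodI.Word K := ⟨l, fun x hx h1 => hl.1 x hx (by rw [h1]; exact one_mem _), hl.2⟩
  have hw : PushoutI.Reduced φ w := fun g hg => hl.1 g hg
  have hp : PushoutI.ofCoprodI w.prod = pr φ l := by
    unfold pr CoprodI.Word.prod
    rw [map_list_prod, List.map_map]
    congr 1
  have h2 := hw.eq_empty_of_mem_range hφ (by rw [hp]; exact h)
  exact congrArg CoprodI.Word.toList h2

/-- the inverse list -/
def iv (l : List (Σ i, K i)) : List (Σ i, K i) := (l.map fun x => ⟨x.1, x.2⁻¹⟩).reverse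

theorem iv_cons (x : Σ i, K i) (l : List (Σ i, K i)) : iv (x :: l) = iv l ++ [⟨x.1, x.2⁻¹⟩] := by
  unfold iv
  rw [List.map_cons, List.reverse_cons]

theorem pr_iv (l : List (Σ i, K i)) : pr φ (iv l) = (pr φ l)⁻¹ := by
  induction l with
  | nil => simp [iv]
  | cons x l ih =>
    rw [iv_cons, pr_append, ih, pr_cons, pr_cons, pr_nil, mul_one, mul_inv_rev, map_inv]

theorem mem_iv {l : List (Σ i, K i)} {x : Σ i, K i} (h : x ∈ iv l) :
    ∃ y ∈ l, x = ⟨y.1, y.2⁻¹⟩ := by
  unfold iv at h
  rw [List.mem_reverse, List.mem_map] at h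
  obtain ⟨y, hy, rfl⟩ := h
  exact ⟨y, hy, rfl⟩

theorem chain_iv {l : List (Σ i, K i)} (h : l.IsChain fun a b => a.1 ≠ b.1) :
    (iv l).IsChain fun a b => a.1 ≠ b.1 := by
  unfold iv
  rw [List.isChain_reverse, List.isChain_map]
  exact h.imp fun a b hab => hab.symm

/-- the list `w⁻¹ y w` -/
theorem red_conj {i : Q} {y : K i} (hy : y ∉ (φ i).range) {w : List (Σ i, K i)} (hw : Red φ w)
    (hi : ∀ x ∈ w.head?, x.1 ≠ i) : Red φ (iv w ++ ⟨i, y⟩ :: w) := by
  refine ⟨?_, ?_⟩
  · intro x hx
    rw [List.mem_append, List.mem_cons] at hx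
    rcases hx with hx | rfl | hx
    · obtain ⟨z, hz, rfl⟩ := mem_iv hx
      intro h
      exact hw.1 z hz ((inv_mem_iff).1 h)
    · exact hy
    · exact hw.1 x hx
  · rw [List.isChain_append]
    refine ⟨chain_iv hw.2, ?_, ?_⟩
    · rw [List.isChain_cons]
      exact ⟨fun x hx => (hi x hx).symm, hw.2⟩
    · intro x hx z hz
      rw [List.head?_cons, Option.mem_def, Option.some.injEq] at hz
      subst hz
      unfold iv at hx
      rw [List.getLast?_reverse, List.head?_map, Option.mem_def, Option.map_eq_some_iff] at hx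
      obtain ⟨a, ha, rfl⟩ := hx
      exact hi a ha

theorem conj_not (hφ : ∀ i, Function.Injective (φ i)) {i : Q} {y : K i} (hy : y ∉ (φ i).range)
    {w : List (Σ i, K i)} (hw : Red φ w) (hi : ∀ x ∈ w.head?, x.1 ≠ i) :
    (pr φ w)⁻¹ * PushoutI.of i y * pr φ w ∉ (PushoutI.base φ).range := by
  intro h
  have h1 : pr φ (iv w ++ ⟨i, y⟩ :: w) = (pr φ w)⁻¹ * PushoutI.of i y * pr φ w := by
    rw [pr_append, pr_iv, pr_cons, mul_assoc]
  have h2 := eq_nil hφ (red_conj hy hw hi) (by rw [h1]; exact h)
  simp at h2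

theorem of_mem {i : Q} {x : K i} (h : x ∈ (φ i).range) :
    PushoutI.of (φ := φ) i x ∈ (PushoutI.base φ).range := by
  obtain ⟨y, rfl⟩ := h
  exact ⟨y, (PushoutI.of_apply_eq_base φ i y).symm⟩

/-- the form `h * w` -/
theorem form (g : PushoutI φ) : ∃ h l, Red φ l ∧ g = PushoutI.base φ h * pr φ l := by
  have h1 : ∀ g : PushoutI φ, ∀ g' : PushoutI φ,
      (∃ h l, Red φ l ∧ g' = PushoutI.base φ h * pr φ l) →
      ∃ h l, Red φ l ∧ g * g' = PushoutI.base φ h * pr φ l := by
    intro g
    induction g using PushoutI.induction_on with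
    | of i k =>
      rintro g' ⟨h, l, hl, rfl⟩
      have e0 : PushoutI.of i k * (PushoutI.base φ h * pr φ l) =
          PushoutI.of i (k * φ i h) * pr φ l := by
        rw [map_mul, PushoutI.of_apply_eq_base, mul_assoc]
      rw [e0]
      generalize k * φ i h = k'
      by_cases hh : ∀ x ∈ l.head?, x.1 ≠ i
      · by_cases hk : k' ∈ (φ i).range
        · obtain ⟨y, rfl⟩ := hk
          exact ⟨y, l, hl, by rw [PushoutI.of_apply_eq_base]⟩
        · refine ⟨1, ⟨i, k'⟩ :: l, ⟨?_, ?_⟩, ?_⟩
          · intro x hx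
            rw [List.mem_cons] at hx
            rcases hx with rfl | hx
            · exact hk
            · exact hl.1 x hx
          · rw [List.isChain_cons]
            exact ⟨fun x hx => (hh x hx).symm, hl.2⟩
          · rw [map_one, one_mul, pr_cons]
      · push Not at hh
        obtain ⟨x, hx, hxi⟩ := hh
        obtain ⟨j, k2⟩ := x
        dsimp only at hxi
        subst hxi
        cases l with
        | nil => simp at hx
        | cons z l =>
          rw [List.head?_cons, Option.mem_def, Option.some.injEq] at hx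
          subst hx
          have hl' : Red φ l := ⟨fun x hx => hl.1 x (List.mem_cons_of_mem _ hx), hl.2.tail⟩
          rw [pr_cons, ← mul_assoc]
          dsimp only
          rw [← map_mul]
          by_cases hk : k' * k2 ∈ (φ j).range
          · obtain ⟨y, hy⟩ := hk
            rw [← hy]
            exact ⟨y, l, hl', by rw [PushoutI.of_apply_eq_base]⟩
          · refine ⟨1, ⟨j, k' * k2⟩ :: l, ⟨?_, ?_⟩, ?_⟩
            · intro x hx
              rw [List.mem_cons] at hx
              rcases hx with rfl | hx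
              · exact hk
              · exact hl'.1 x hx
            · have h3 := hl.2
              rw [List.isChain_cons] at h3 ⊢
              exact ⟨fun x hx => h3.1 x hx, h3.2⟩
            · rw [map_one, one_mul, pr_cons]
    | base h' =>
      rintro g' ⟨h, l, hl, rfl⟩
      exact ⟨h' * h, l, hl, by rw [map_mul, mul_assoc]⟩
    | mul x y hx hy =>
      intro g' hg'
      rw [mul_assoc]
      exact hx _ (hy _ hg')
  have h2 := h1 g 1 ⟨1, [], ⟨fun x hx => absurd hx List.not_mem_nil, List.isChain_nil⟩, by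
    rw [map_one, pr_nil, mul_one]⟩
  rwa [mul_one] at h2

/-- the first letter of an element outside of the base group -/
theorem first {g : PushoutI φ} (hg : g ∉ (PushoutI.base φ).range) :
    ∃ (i : Q) (k : K i) (w : List (Σ i, K i)), k ∉ (φ i).range ∧ Red φ w ∧
      (∀ x ∈ w.head?, x.1 ≠ i) ∧ g = PushoutI.of i k * pr φ w := by
  obtain ⟨h, l, hl, rfl⟩ := form g
  cases l with
  | nil => exact absurd ⟨h, by rw [pr_nil, mul_one]⟩ hg
  | cons x w =>
    obtain ⟨i, k⟩ := x
    have h3 := hl.2
    rw [List.isChain_cons] at h3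
    refine ⟨i, φ i h * k, w, ?_, ⟨fun x hx => hl.1 x (List.mem_cons_of_mem _ hx), h3.2⟩,
      fun x hx => (h3.1 x hx).symm, ?_⟩
    · intro h4
      refine hl.1 ⟨i, k⟩ List.mem_cons_self ?_
      exact (Subgroup.mul_mem_cancel_left (φ i).range (MonoidHom.mem_range.2 ⟨h, rfl⟩)).1 h4
    · rw [pr_cons, map_mul, PushoutI.of_apply_eq_base, mul_assoc]

theorem conj_first {i : Q} (k : K i) (s : H) (w : PushoutI φ) :
    (PushoutI.of i k * w)⁻¹ * PushoutI.base φ s * (PushoutI.of i k * w) =
      w⁻¹ * PushoutI.of i (k⁻¹ * φ i s * k) * w := by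
  rw [map_mul, map_mul, map_inv, PushoutI.of_apply_eq_base, mul_inv_rev]
  simp only [mul_assoc]

/-- **Job EC-AMALGI.** -/
theorem amalgi : S_AMALGI.{u} := by
  intro Q H _ K _ φ hφ
  refine ⟨PushoutI φ, inferInstance, PushoutI.base φ, fun i => PushoutI.of i,
    PushoutI.base_injective hφ, fun i => PushoutI.of_injective hφ i,
    fun i x => PushoutI.of_apply_eq_base φ i x, ?_, ?_, ?_⟩
  · rw [eq_top_iff]
    rintro g -
    induction g using PushoutI.induction_on with
    | of i k =>
      exact Subgroup.subset_closure (Or.inr (Set.mem_iUnion.2 ⟨i, ⟨k, rfl⟩⟩))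
    | base h => exact Subgroup.subset_closure (Or.inl ⟨h, rfl⟩)
    | mul x y hx hy => exact mul_mem hx hy
  · intro S hS g hg
    by_contra hgb
    obtain ⟨i, k, w, hk, hw, hi, rfl⟩ := first hgb
    apply hk
    refine hS i k fun s hs => ?_
    by_contra hks
    have h1 := hg s hs
    rw [conj_first] at h1
    exact conj_not hφ hks hw hi h1
  · intro S τ f h1 h2 h3 g hg
    by_contra hcon
    push Not at hcon
    obtain ⟨hgb, hgt⟩ := hcon
    obtain ⟨i, k, w, hk, hw, hi, rfl⟩ := first hgb
    have h4 : ∀ s ∈ S, k⁻¹ * φ i s * k ∈ (φ i).range := by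
      intro s hs
      by_contra hks
      have h5 := hg s hs
      rw [conj_first] at h5
      exact conj_not hφ hks hw hi h5
    rcases h2 i k h4 with h5 | ⟨y, ⟨y', rfl⟩, rfl⟩
    · exact hk h5
    have h6 : ∀ s ∈ S, (τ i * φ i y')⁻¹ * φ i s * (τ i * φ i y') =
        φ i (y'⁻¹ * f i s * y') := by
      intro s hs
      have h7 := h1 i s hs
      rw [map_mul, map_mul, map_inv, ← h7, mul_inv_rev]
      simp only [mul_assoc]
    cases w with
    | nil =>
      refine hgt i (PushoutI.base φ y') ⟨y', rfl⟩ ?_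
      rw [pr_nil, mul_one, map_mul, PushoutI.of_apply_eq_base]
    | cons x w =>
      obtain ⟨j, k2⟩ := x
      have hij : j ≠ i := hi ⟨j, k2⟩ rfl
      have h3' := hw.2
      rw [List.isChain_cons] at h3'
      have hw' : Red φ w := ⟨fun x hx => hw.1 x (List.mem_cons_of_mem _ hx), h3'.2⟩
      have hk2 : φ j y' * k2 ∉ (φ j).range := by
        intro h8
        exact hw.1 ⟨j, k2⟩ List.mem_cons_self
          ((Subgroup.mul_mem_cancel_left (φ j).range (MonoidHom.mem_range.2 ⟨y', rfl⟩)).1 h8)
      apply hk2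
      refine h3 i j hij.symm _ fun s hs => ?_
      by_contra hks
      refine conj_not hφ hks hw' (fun x hx => (h3'.1 x hx).symm) ?_
      have h9 := hg s hs
      rw [conj_first, h6 s hs, PushoutI.of_apply_eq_base, pr_cons, conj_first] at h9
      have h10 : k2⁻¹ * φ j (y'⁻¹ * f i s * y') * k2 =
          (φ j y' * k2)⁻¹ * φ j (f i s) * (φ j y' * k2) := by
        rw [map_mul, map_mul, map_inv, mul_inv_rev]
        simp only [mul_assoc]
      rw [← h10]
      exact h9

end Pool.Agent.Q110.EC
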