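import Pool.Agent.Q110.EC.Amalgi

/-! Free products: the factors are malnormal; centralizers in `A * F` (job EC-COP). -/

set_option autoImplicit false

universe u

namespace Pool.Agent.Q110.EC

open Monoid Pool.Agent.Q22.EC

section general

variable {Q H : Type u} [Group H] {K : Q → Type u} [∀ i, Group (K i)] {φ : ∀ i, H →* K i}

theorem Red.append_one {l : List (Σ i, K i)} (hl : Red φ l) {j : Q} {z : K j}
    (hz : z ∉ (φ j).range) (hj : ∀ x ∈ l.getLast?, x.1 ≠ j) : Red φ (l ++ [⟨j, z⟩]) := by
  refine ⟨?_, ?_⟩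
  · intro x hx
    rw [List.mem_append, List.mem_singleton] at hx
    rcases hx with hx | rfl
    · exact hl.1 x hx
    · exact hz
  · rw [List.isChain_append]
    refine ⟨hl.2, List.isChain_singleton _, ?_⟩
    intro x hx y hy
    rw [List.head?_cons, Option.mem_def, Option.some.injEq] at hy
    subst hy
    exact hj x hx

/-- a reduced list with product in `K j` has at most one letter -/
theorem eq_single (hφ : ∀ i, Function.Injective (φ i)) {l : List (Σ i, K i)} (hl : Red φ l) {j : Q}
    (h : pr φ l ∈ (PushoutI.of (φ := φ) j).range) : l = [] ∨ ∃ k, l = [⟨j, k⟩] := by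
  obtain ⟨y, hy⟩ := h
  rcases List.eq_nil_or_concat l with h0 | ⟨l', x, rfl⟩
  · exact Or.inl h0
  right
  obtain ⟨m, k⟩ := x
  rw [List.concat_eq_append] at hl hy ⊢
  have hk : k ∉ (φ m).range := hl.1 ⟨m, k⟩ (by simp)
  have hl' : Red φ l' := ⟨fun x hx => hl.1 x (List.mem_append_left _ hx), by
    have := hl.2
    rw [List.isChain_append] at this
    exact this.1⟩
  have hlast : ∀ x ∈ l'.getLast?, x.1 ≠ m := by
    intro x hx
    have := hl.2
    rw [List.isChain_append] at this
    exact this.2.2 x hx ⟨m, k⟩ rfl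
  by_cases hm : m = j
  · subst hm
    have h1 : pr φ l' = PushoutI.of m (y * k⁻¹) := by
      rw [map_mul, map_inv, hy, pr_append, pr_cons, pr_nil]
      simp
    by_cases hz : k * y⁻¹ ∈ (φ m).range
    · have hz' : y * k⁻¹ ∈ (φ m).range := by
        have := inv_mem hz
        rwa [mul_inv_rev, inv_inv] at this
      have h2 := eq_nil hφ hl' (by rw [h1]; exact of_mem hz')
      refine ⟨k, ?_⟩
      rw [h2, List.nil_append]
    · exfalso
      have h2 := eq_nil hφ (hl'.append_one hz hlast) (by
        rw [pr_append, h1, pr_cons, pr_nil, mul_one]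
        dsimp only
        rw [← map_mul]
        have : y * k⁻¹ * (k * y⁻¹) = 1 := by group
        rw [this, map_one]
        exact one_mem _)
      simp at h2
  · exfalso
    by_cases hz : y ∈ (φ j).range
    · have h2 := eq_nil hφ hl (by rw [← hy]; exact of_mem hz)
      simp at h2
    · have hz' : y⁻¹ ∉ (φ j).range := fun h => hz ((inv_mem_iff).1 h)
      have h2 := eq_nil hφ (hl.append_one hz' (by
        intro x hx
        rw [List.getLast?_append_of_ne_nil _ (by simp)] at hx
        rw [List.getLast?_singleton, Option.mem_def, Option.some.injEq] at hx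
        subst hx
        exact hm)) (by
        rw [pr_append, ← hy, pr_cons, pr_nil, mul_one]
        dsimp only
        rw [← map_mul, mul_inv_cancel, map_one]
        exact one_mem _)
      simp at h2

/-- every element is `k * w`, `k` in `K i`, `w` reduced and not starting with `i` -/
theorem split (i : Q) (g : PushoutI φ) : ∃ (k : K i) (w : List (Σ i, K i)), Red φ w ∧
    (∀ x ∈ w.head?, x.1 ≠ i) ∧ g = PushoutI.of i k * pr φ w := by
  obtain ⟨h, l, hl, rfl⟩ := form g
  by_cases hh : ∀ x ∈ l.head?, x.1 ≠ i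
  · exact ⟨φ i h, l, hl, hh, by rw [PushoutI.of_apply_eq_base]⟩
  · push Not at hh
    obtain ⟨x, hx, hxi⟩ := hh
    obtain ⟨j, k⟩ := x
    dsimp only at hxi
    subst hxi
    cases l with
    | nil => simp at hx
    | cons z w =>
      rw [List.head?_cons, Option.mem_def, Option.some.injEq] at hx
      subst hx
      have h3 := hl.2
      rw [List.isChain_cons] at h3
      refine ⟨φ j h * k, w, ⟨fun x hx => hl.1 x (List.mem_cons_of_mem _ hx), h3.2⟩,
        fun x hx => (h3.1 x hx).symm, ?_⟩
      rw [pr_cons, map_mul, PushoutI.of_apply_eq_base, mul_assoc]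

/-- conjugates of an element of `K i`, no conjugate of which lies in the base group -/
theorem conj_mem (hφ : ∀ i, Function.Injective (φ i)) {i j : Q} {y : K i}
    (hy : ∀ k : K i, k⁻¹ * y * k ∉ (φ i).range) {g : PushoutI φ}
    (h : g⁻¹ * PushoutI.of i y * g ∈ (PushoutI.of (φ := φ) j).range) :
    i = j ∧ g ∈ (PushoutI.of (φ := φ) i).range := by
  obtain ⟨k, w, hw, hi, rfl⟩ := split i g
  have e1 : (PushoutI.of i k * pr φ w)⁻¹ * PushoutI.of i y * (PushoutI.of i k * pr φ w) =
      pr φ (iv w ++ ⟨i, k⁻¹ * y * k⟩ :: w) := by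
    rw [pr_append, pr_iv, pr_cons]
    dsimp only
    rw [map_mul, map_mul, map_inv, mul_inv_rev]
    simp only [mul_assoc]
  rw [e1] at h
  rcases eq_single hφ (red_conj (hy k) hw hi) h with h1 | ⟨z, h1⟩
  · simp at h1
  · have h2 : w = [] := by
      have h3 := congrArg List.length h1
      rw [List.length_append, List.length_cons, List.length_singleton] at h3
      exact List.length_eq_zero_iff.1 (by omega)
    subst h2
    have h3 : (⟨i, k⁻¹ * y * k⟩ : Σ i, K i) = ⟨j, z⟩ := by
      simpa [iv] using h1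
    refine ⟨congrArg Sigma.fst h3, ?_⟩
    rw [pr_nil, mul_one]
    exact ⟨k, rfl⟩

end general

section two

variable {A B : Type u} [Group A] [Group B] {K : ULift.{u} Bool → Type u} [∀ i, Group (K i)]

/-- the trivial maps -/
def ph (K : ULift.{u} Bool → Type u) [∀ i, Group (K i)] (i : ULift.{u} Bool) :
    PUnit.{u + 1} →* K i := 1

/-- the map from the free product -/
def th (eA : A ≃* K ⟨false⟩) (eB : B ≃* K ⟨true⟩) : Coprod A B →* PushoutI (ph K) :=
  Coprod.lift ((PushoutI.of (φ := ph K) ⟨false⟩).comp eA.toMonoidHom)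
    ((PushoutI.of (φ := ph K) ⟨true⟩).comp eB.toMonoidHom)

/-- the components of the inverse map -/
def et0 (eA : A ≃* K ⟨false⟩) (eB : B ≃* K ⟨true⟩) : ∀ i, K i →* Coprod A B
  | ⟨false⟩ => (Coprod.inl : A →* Coprod A B).comp eA.symm.toMonoidHom
  | ⟨true⟩ => (Coprod.inr : B →* Coprod A B).comp eB.symm.toMonoidHom

/-- the inverse map -/
def et (eA : A ≃* K ⟨false⟩) (eB : B ≃* K ⟨true⟩) : PushoutI (ph K) →* Coprod A B :=
  PushoutI.lift (et0 eA eB) 1 (by
    intro i
    ext x
    rw [MonoidHom.comp_apply]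
    unfold ph
    rw [MonoidHom.one_apply, MonoidHom.one_apply, map_one])

theorem th_inl (eA : A ≃* K ⟨false⟩) (eB : B ≃* K ⟨true⟩) (a : A) :
    th eA eB (Coprod.inl a) = PushoutI.of (φ := ph K) ⟨false⟩ (eA a) := by
  unfold th
  rw [Coprod.lift_apply_inl]
  rfl

theorem th_inr (eA : A ≃* K ⟨false⟩) (eB : B ≃* K ⟨true⟩) (b : B) :
    th eA eB (Coprod.inr b) = PushoutI.of (φ := ph K) ⟨true⟩ (eB b) := by
  unfold th
  rw [Coprod.lift_apply_inr]
  rfl

theorem et_th (eA : A ≃* K ⟨false⟩) (eB : B ≃* K ⟨true⟩) (p : Coprod A B) :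
    et eA eB (th eA eB p) = p := by
  have h : (et eA eB).comp (th eA eB) = MonoidHom.id _ := by
    apply Coprod.hom_ext
    · ext a
      rw [MonoidHom.comp_apply, MonoidHom.comp_apply, th_inl, MonoidHom.comp_apply]
      unfold et
      rw [PushoutI.lift_of]
      unfold et0
      rw [MonoidHom.comp_apply]
      simp
    · ext b
      rw [MonoidHom.comp_apply, MonoidHom.comp_apply, th_inr, MonoidHom.comp_apply]
      unfold et
      rw [PushoutI.lift_of]
      unfold et0
      rw [MonoidHom.comp_apply]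
      simp
  exact congrArg (fun f => f p) h

theorem th_inj (eA : A ≃* K ⟨false⟩) (eB : B ≃* K ⟨true⟩) : Function.Injective (th eA eB) :=
  Function.LeftInverse.injective (et_th eA eB)

theorem ph_inj (i) : Function.Injective (ph K i) :=
  fun _ _ _ => rfl

theorem ph_range {i} {y : K i} (h : y ∈ (ph K i).range) : y = 1 := by
  obtain ⟨x, rfl⟩ := h
  rfl

theorem ph_conj {i} {y : K i} (hy : y ≠ 1) (k : K i) : k⁻¹ * y * k ∉ (ph K i).range := by
  intro h
  apply hy
  have h2 := ph_range h
  have h3 : y = k * (k⁻¹ * y * k) * k⁻¹ := by group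
  rw [h2, mul_one, mul_inv_cancel] at h3
  exact h3

theorem malr0 (eA : A ≃* K ⟨false⟩) (eB : B ≃* K ⟨true⟩) {b : B} (hb : b ≠ 1) {p : Coprod A B}
    (h : p⁻¹ * Coprod.inr b * p ∈ (Coprod.inr : B →* Coprod A B).range) :
    p ∈ (Coprod.inr : B →* Coprod A B).range := by
  obtain ⟨b', hb'⟩ := h
  have h1 : (th eA eB p)⁻¹ * PushoutI.of (φ := ph K) ⟨true⟩ (eB b) * th eA eB p ∈
      (PushoutI.of (φ := ph K) ⟨true⟩).range := by
    refine ⟨eB b', ?_⟩
    rw [← th_inr eA eB, ← th_inr eA eB, hb', map_mul, map_mul, map_inv]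
  obtain ⟨-, c, hc⟩ := conj_mem ph_inj
    (ph_conj (fun h0 => hb ((map_eq_one_iff eB eB.injective).1 h0))) h1
  refine ⟨eB.symm c, th_inj eA eB ?_⟩
  rw [th_inr, MulEquiv.apply_symm_apply]
  exact hc

theorem mall0 (eA : A ≃* K ⟨false⟩) (eB : B ≃* K ⟨true⟩) {a : A} (ha : a ≠ 1) {p : Coprod A B}
    (h : p⁻¹ * Coprod.inl a * p ∈ (Coprod.inl : A →* Coprod A B).range) :
    p ∈ (Coprod.inl : A →* Coprod A B).range := by
  obtain ⟨b', hb'⟩ := h
  have h1 : (th eA eB p)⁻¹ * PushoutI.of (φ := ph K) ⟨false⟩ (eA a) * th eA eB p ∈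
      (PushoutI.of (φ := ph K) ⟨false⟩).range := by
    refine ⟨eA b', ?_⟩
    rw [← th_inl eA eB, ← th_inl eA eB, hb', map_mul, map_mul, map_inv]
  obtain ⟨-, c, hc⟩ := conj_mem ph_inj
    (ph_conj (fun h0 => ha ((map_eq_one_iff eA eA.injective).1 h0))) h1
  refine ⟨eA.symm c, th_inj eA eB ?_⟩
  rw [th_inl, MulEquiv.apply_symm_apply]
  exact hc

end two

/-- the two factors -/
def KK (A B : Type u) (i : ULift.{u} Bool) : Type u := Bool.rec A B i.down

instance instKK (A B : Type u) [Group A] [Group B] : ∀ i, Group (KK A B i)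
  | ⟨false⟩ => inferInstanceAs (Group A)
  | ⟨true⟩ => inferInstanceAs (Group B)

/-- the first factor -/
def eqA (A B : Type u) [Group A] [Group B] : A ≃* KK A B ⟨false⟩ where
  toFun x := x
  invFun x := x
  left_inv _ := rfl
  right_inv _ := rfl
  map_mul' _ _ := rfl

/-- the second factor -/
def eqB (A B : Type u) [Group A] [Group B] : B ≃* KK A B ⟨true⟩ where
  toFun x := x
  invFun x := x
  left_inv _ := rfl
  right_inv _ := rfl
  map_mul' _ _ := rfl

theorem malr {A B : Type u} [Group A] [Group B] {b : B} (hb : b ≠ 1) {p : Coprod A B}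
    (h : p⁻¹ * Coprod.inr b * p ∈ (Coprod.inr : B →* Coprod A B).range) :
    p ∈ (Coprod.inr : B →* Coprod A B).range := malr0 (eqA A B) (eqB A B) hb h

theorem mall {A B : Type u} [Group A] [Group B] {a : A} (ha : a ≠ 1) {p : Coprod A B}
    (h : p⁻¹ * Coprod.inl a * p ∈ (Coprod.inl : A →* Coprod A B).range) :
    p ∈ (Coprod.inl : A →* Coprod A B).range := mall0 (eqA A B) (eqB A B) ha h

open scoped Classical in
/-- an element of a free group commuting with the basis element `x` is fixed by the retraction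
onto the subgroup generated by `x` -/
theorem retract {X : Type u} (x : X) {w : FreeGroup X}
    (h : w * FreeGroup.of x = FreeGroup.of x * w) :
    FreeGroup.lift (fun z => if z = x then FreeGroup.of x else 1) w = w := by
  set σ : FreeGroup X →* Coprod (FreeGroup X) (FreeGroup X) := FreeGroup.lift fun z =>
    if z = x then Coprod.inl (FreeGroup.of x) else Coprod.inr (FreeGroup.of z) with hσ
  have h1 : (σ w)⁻¹ * Coprod.inl (FreeGroup.of x) * σ w ∈
      (Coprod.inl : FreeGroup X →* Coprod (FreeGroup X) (FreeGroup X)).range := by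
    refine ⟨FreeGroup.of x, ?_⟩
    have h2 : σ (FreeGroup.of x) = Coprod.inl (FreeGroup.of x) := by
      rw [hσ, FreeGroup.lift_apply_of, if_pos rfl]
    rw [← h2, ← map_inv, ← map_mul, ← map_mul, mul_assoc, ← h, inv_mul_cancel_left]
  obtain ⟨u, hu⟩ := mall (FreeGroup.of_ne_one x) h1
  have h3 : (Coprod.lift (MonoidHom.id (FreeGroup X)) (MonoidHom.id (FreeGroup X))).comp σ =
      MonoidHom.id _ := by
    ext z
    rw [MonoidHom.comp_apply, hσ, FreeGroup.lift_apply_of]
    split_ifs with hz
    · subst hz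
      simp
    · simp
  have h4 : (Coprod.lift (MonoidHom.id (FreeGroup X)) 1).comp σ =
      FreeGroup.lift (fun z => if z = x then FreeGroup.of x else 1) := by
    ext z
    rw [MonoidHom.comp_apply, hσ, FreeGroup.lift_apply_of, FreeGroup.lift_apply_of]
    split_ifs with hz
    · simp
    · simp
  have h5 : u = w := by
    have := congrArg (fun f => f w) h3
    simp only [MonoidHom.comp_apply, ← hu, Coprod.lift_apply_inl, MonoidHom.id_apply] at this
    exact this
  have h6 : u = FreeGroup.lift (fun z => if z = x then FreeGroup.of x else 1) w := by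
    have := congrArg (fun f => f w) h4
    simp only [MonoidHom.comp_apply, ← hu, Coprod.lift_apply_inl, MonoidHom.id_apply] at this
    exact this
  rw [← h6, h5]

/-- **Job EC-COP.** -/
theorem cop : S_COP.{u} := by
  classical
  refine ⟨fun A B _ _ b hb p h => malr hb h, fun A B _ _ a ha p h => mall ha h, ?_⟩
  intro A X _ x y hxy p hx hy
  have h1 : p ∈ (Coprod.inr : FreeGroup X →* Coprod A (FreeGroup X)).range := by
    refine malr (FreeGroup.of_ne_one x) ⟨FreeGroup.of x, ?_⟩
    rw [mul_assoc, ← hx, inv_mul_cancel_left]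
  obtain ⟨w, rfl⟩ := h1
  have hinj : Function.Injective (Coprod.inr : FreeGroup X →* Coprod A (FreeGroup X)) :=
    Coprod.inr_injective
  rw [← map_mul, ← map_mul] at hx hy
  have h2 := retract x (hinj hx)
  have h3 := retract y (hinj hy)
  have h4 : (FreeGroup.lift (fun z => if z = x then FreeGroup.of x else 1)).comp
      (FreeGroup.lift (fun z => if z = y then FreeGroup.of y else 1)) =
      (1 : FreeGroup X →* FreeGroup X) := by
    ext z
    rw [MonoidHom.comp_apply, FreeGroup.lift_apply_of]
    split_ifs with hz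
    · rw [FreeGroup.lift_apply_of, if_neg hxy.symm]
      rfl
    · rw [map_one]
      rfl
  have h5 := congrArg (fun f => f w) h4
  simp only [MonoidHom.comp_apply, MonoidHom.one_apply] at h5
  rw [h3, h2] at h5
  rw [h5, map_one]

end Pool.Agent.Q110.EC
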